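import Pool.Agent.H31.CN.T2

/-! # TH1: the theta constant -/

set_option autoImplicit false

open MeasureTheory Set Filter
open scoped Real Matrix MatrixGroups Topology

namespace Pool.Agent.H25.CN

open Pool.Agent.H31.CN

theorem sN (u : ℝ) (hu : 0 < u) : Summable (fun n : ℕ => Real.exp (-(π * (n : ℝ) ^ 2 * u))) := by
  have h1 : Summable (fun n : ℕ => Real.exp (-(π * u)) ^ n) := by
    refine summable_geometric_of_lt_one (Real.exp_pos _).le ?_
    rw [Real.exp_lt_one_iff]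
    have := Real.pi_pos
    nlinarith [mul_pos this hu]
  refine Summable.of_nonneg_of_le (fun n => (Real.exp_pos _).le) (fun n => ?_) h1
  rw [← Real.exp_nat_mul]
  refine Real.exp_le_exp.2 ?_
  have h2 : (n : ℝ) ≤ (n : ℝ) ^ 2 := by
    exact_mod_cast Nat.le_self_pow two_ne_zero n
  have h3 : 0 < π * u := mul_pos Real.pi_pos hu
  nlinarith

theorem sN1 (u : ℝ) (hu : 0 < u) :
    Summable (fun n : ℕ => Real.exp (-(π * ((n : ℝ) + 1) ^ 2 * u))) := by
  have h := (summable_nat_add_iff 1).2 (sN u hu)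
  refine h.congr fun n => ?_
  push_cast
  rfl

theorem sZ (u : ℝ) (hu : 0 < u) : Summable (fun n : ℤ => Real.exp (-(π * (n : ℝ) ^ 2 * u))) := by
  refine Summable.of_nat_of_neg ?_ ?_
  · refine (sN u hu).congr fun n => ?_
    push_cast
    rfl
  · refine (sN u hu).congr fun n => ?_
    push_cast
    rw [neg_sq]

theorem th1_eq (u : ℝ) (hu : 0 < u) :
    th1 u - 1 = 2 * ∑' n : ℕ, Real.exp (-(π * ((n : ℝ) + 1) ^ 2 * u)) := by
  unfold th1
  have h1 : Summable (fun n : ℕ => Real.exp (-(π * (((n : ℕ) : ℤ) : ℝ) ^ 2 * u))) := by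
    refine (sN u hu).congr fun n => ?_
    push_cast
    rfl
  have h2 : ∀ n : ℕ, Real.exp (-(π * ((-((n : ℤ) + 1) : ℤ) : ℝ) ^ 2 * u)) =
      Real.exp (-(π * ((n : ℝ) + 1) ^ 2 * u)) := by
    intro n
    push_cast
    congr 3
    ring
  rw [tsum_of_nat_of_neg_add_one (f := fun n : ℤ => Real.exp (-(π * (n : ℝ) ^ 2 * u))) h1
    ((sN1 u hu).congr fun n => (h2 n).symm)]
  have h3 : ∑' n : ℕ, Real.exp (-(π * (((n : ℕ) : ℤ) : ℝ) ^ 2 * u)) =
      1 + ∑' n : ℕ, Real.exp (-(π * ((n : ℝ) + 1) ^ 2 * u)) := by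
    rw [h1.tsum_eq_zero_add]
    have h4 : Real.exp (-(π * (((0 : ℕ) : ℤ) : ℝ) ^ 2 * u)) = 1 := by simp
    rw [h4]
    congr 1
    refine tsum_congr fun n => ?_
    push_cast
    rfl
  rw [h3, tsum_congr h2]
  ring

theorem th1_nonneg (u : ℝ) (hu : 0 < u) : 0 ≤ th1 u - 1 := by
  rw [th1_eq u hu]
  have : 0 ≤ ∑' n : ℕ, Real.exp (-(π * ((n : ℝ) + 1) ^ 2 * u)) :=
    tsum_nonneg fun n => (Real.exp_pos _).le
  linarith

theorem th1_le_half (u : ℝ) (hu : 1 / 2 ≤ u) : th1 u - 1 ≤ 4 * Real.exp (-(π * u)) := by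
  have hu0 : 0 < u := by linarith
  rw [th1_eq u hu0]
  have h1 : ∀ n : ℕ, Real.exp (-(π * ((n : ℝ) + 1) ^ 2 * u)) ≤
      Real.exp (-(π * u)) * (1 / 2) ^ n := by
    intro n
    have h2 : Real.exp (-(π * ((n : ℝ) + 1) ^ 2 * u)) =
        Real.exp (-(π * u)) * Real.exp (-(π * ((n : ℝ) ^ 2 + 2 * n) * u)) := by
      rw [← Real.exp_add]
      congr 1
      ring
    rw [h2]
    refine mul_le_mul_of_nonneg_left ?_ (Real.exp_pos _).le
    have h3 : Real.exp (-1) ≤ 1 / 2 := by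
      rw [Real.exp_neg, one_div]
      refine inv_anti₀ two_pos ?_
      have := Real.add_one_le_exp 1
      linarith
    calc Real.exp (-(π * ((n : ℝ) ^ 2 + 2 * n) * u)) ≤ Real.exp (n * (-1)) := by
          refine Real.exp_le_exp.2 ?_
          have h4 : (0 : ℝ) ≤ n := Nat.cast_nonneg n
          have h5 := Real.pi_gt_three
          have h6 : (2 * n : ℝ) ≤ (n : ℝ) ^ 2 + 2 * n := by nlinarith
          have h7 : (3 : ℝ) * (2 * n) ≤ π * ((n : ℝ) ^ 2 + 2 * n) := by nlinarith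
          nlinarith
      _ = Real.exp (-1) ^ n := by rw [Real.exp_nat_mul]
      _ ≤ (1 / 2) ^ n := pow_le_pow_left₀ (Real.exp_pos _).le h3 n
  have h2 : HasSum (fun n : ℕ => Real.exp (-(π * u)) * (1 / 2 : ℝ) ^ n)
      (Real.exp (-(π * u)) * 2) := hasSum_geometric_two.mul_left _
  have h3 := (sN1 u hu0).tsum_le_tsum h1 h2.summable
  rw [h2.tsum_eq] at h3
  linarith

theorem th1_feq (u : ℝ) (hu : 0 < u) : th1 u⁻¹ = Real.sqrt u * th1 u := by
  have h1 := Real.tsum_exp_neg_mul_int_sq hu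
  unfold th1
  have h2 : ∑' n : ℤ, Real.exp (-(π * (n : ℝ) ^ 2 * u)) =
      ∑' n : ℤ, Real.exp (-π * u * (n : ℝ) ^ 2) := by
    refine tsum_congr fun n => ?_
    congr 1
    ring
  have h3 : ∑' n : ℤ, Real.exp (-(π * (n : ℝ) ^ 2 * u⁻¹)) =
      ∑' n : ℤ, Real.exp (-π / u * (n : ℝ) ^ 2) := by
    refine tsum_congr fun n => ?_
    congr 1
    field_simp
  rw [h2, h3, h1, Real.sqrt_eq_rpow]
  have h4 : (0 : ℝ) < u ^ (1 / 2 : ℝ) := Real.rpow_pos_of_pos hu _
  field_simp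

theorem th1_le (u : ℝ) (hu : 0 < u) : th1 u - 1 ≤ 4 * (1 + 1 / Real.sqrt u) *
    Real.exp (-(π * u)) := by
  have hs : 0 < Real.sqrt u := Real.sqrt_pos.2 hu
  -- a crude bound
  have h0 : th1 u ≤ 3 + 4 / Real.sqrt u := by
    rcases le_total (1 / 2) u with h | h
    · have h1 := th1_le_half u h
      have h2 : Real.exp (-(π * u)) ≤ 1 / 2 := by
        have h3 : Real.exp (-1) ≤ 1 / 2 := by
          rw [Real.exp_neg, one_div]
          refine inv_anti₀ two_pos ?_
          have := Real.add_one_le_exp 1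
          linarith
        refine (Real.exp_le_exp.2 ?_).trans h3
        have := Real.pi_gt_three
        nlinarith
      have h3 : 0 < 4 / Real.sqrt u := by positivity
      linarith
    · have hi : 1 / 2 ≤ u⁻¹ := by
        rw [one_div]
        refine inv_anti₀ hu ?_
        linarith
      have h1 := th1_le_half u⁻¹ hi
      rw [th1_feq u hu] at h1
      have h2 : Real.exp (-(π * u⁻¹)) ≤ 1 / 2 := by
        have h3 : Real.exp (-1) ≤ 1 / 2 := by
          rw [Real.exp_neg, one_div]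
          refine inv_anti₀ two_pos ?_
          have := Real.add_one_le_exp 1
          linarith
        refine (Real.exp_le_exp.2 ?_).trans h3
        have := Real.pi_gt_three
        nlinarith
      have h3 : Real.sqrt u * th1 u ≤ 3 := by linarith
      have h4 : th1 u ≤ 3 / Real.sqrt u := by
        rw [le_div_iff₀ hs, mul_comm]
        exact h3
      have h5 : 3 / Real.sqrt u ≤ 4 / Real.sqrt u := by
        gcongr
        norm_num
      linarith
  rw [th1_eq u hu]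
  have h1 : ∀ n : ℕ, Real.exp (-(π * ((n : ℝ) + 1) ^ 2 * u)) ≤
      Real.exp (-(π * u)) * Real.exp (-(π * (n : ℝ) ^ 2 * u)) := by
    intro n
    rw [← Real.exp_add]
    refine Real.exp_le_exp.2 ?_
    have h2 : (0 : ℝ) ≤ π * n * u := by positivity
    nlinarith
  have h2 := (sN1 u hu).tsum_le_tsum h1 ((sN u hu).mul_left _)
  rw [tsum_mul_left] at h2
  have h3 : ∑' n : ℕ, Real.exp (-(π * (n : ℝ) ^ 2 * u)) = (th1 u + 1) / 2 := by
    rw [(sN u hu).tsum_eq_zero_add]
    have h4 := th1_eq u hu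
    have h5 : ∑' n : ℕ, Real.exp (-(π * ((n + 1 : ℕ) : ℝ) ^ 2 * u)) =
        ∑' n : ℕ, Real.exp (-(π * ((n : ℝ) + 1) ^ 2 * u)) := by
      refine tsum_congr fun n => ?_
      push_cast
      rfl
    rw [h5]
    have h6 : Real.exp (-(π * ((0 : ℕ) : ℝ) ^ 2 * u)) = 1 := by simp
    rw [h6]
    linarith
  rw [h3] at h2
  have he := Real.exp_pos (-(π * u))
  have h4 : (th1 u + 1) / 2 ≤ 2 * (1 + 1 / Real.sqrt u) := by
    have h5 : 4 / Real.sqrt u = 4 * (1 / Real.sqrt u) := by ring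
    rw [h5] at h0
    linarith
  calc 2 * ∑' n : ℕ, Real.exp (-(π * ((n : ℝ) + 1) ^ 2 * u))
      ≤ 2 * (Real.exp (-(π * u)) * ((th1 u + 1) / 2)) := by linarith
    _ ≤ 2 * (Real.exp (-(π * u)) * (2 * (1 + 1 / Real.sqrt u))) := by gcongr
    _ = _ := by ring

theorem th1_cont : ContinuousOn th1 (Ioi 0) := by
  intro u0 hu0
  have hu0' : 0 < u0 := hu0
  have hcont : ContinuousOn th1 (Ioi (u0 / 2)) := by
    unfold th1
    refine continuousOn_tsum (u := fun n : ℤ => Real.exp (-(π * (n : ℝ) ^ 2 * (u0 / 2)))) ?_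
      (sZ (u0 / 2) (by linarith)) ?_
    · intro n
      exact Continuous.continuousOn (by fun_prop)
    · intro n u hu
      rw [Real.norm_eq_abs, abs_of_pos (Real.exp_pos _)]
      refine Real.exp_le_exp.2 (neg_le_neg ?_)
      have h1 : 0 ≤ π * (n : ℝ) ^ 2 := by positivity
      exact mul_le_mul_of_nonneg_left (le_of_lt hu) h1
  exact (hcont.continuousAt (Ioi_mem_nhds (by linarith))).continuousWithinAt

theorem pf_TH1 : T_TH1 := by
  refine ⟨fun u hu => ⟨sZ u hu, th1_feq u hu⟩, th1_cont, fun u hu => ?_, fun u hu => ?_⟩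
  · exact ⟨th1_nonneg u (by linarith), th1_le_half u hu⟩
  · exact ⟨th1_nonneg u hu, th1_le u hu⟩

end Pool.Agent.H25.CN
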