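import Pool.Agent.H31.CN.T2
import Pool.Agent.H25.CN.TH1

/-! # THA: the average of the theta function over the middle coefficient -/

set_option autoImplicit false

open MeasureTheory Set Filter
open scoped Real Matrix MatrixGroups Topology

namespace Pool.Agent.H25.CN

open Pool.Agent.H31.CN

/-- Poisson summation in one variable -/
theorem poisson (u a : ℝ) (hu : 0 < u) :
    ((∑' x : ℤ, Real.exp (-(π * ((x : ℝ) + a) ^ 2 * u)) : ℝ) : ℂ) =
      (((Real.sqrt u)⁻¹ : ℝ) : ℂ) * ∑' n : ℤ, ((Real.exp (-(π * (n : ℝ) ^ 2 * u⁻¹)) : ℝ) : ℂ) *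
        Complex.exp (-(2 * π * a * n) * Complex.I) := by
  have hv : (0 : ℝ) < ((u⁻¹ : ℝ) : ℂ).re := by
    rw [Complex.ofReal_re]
    exact inv_pos.2 hu
  have h1 := Complex.tsum_exp_neg_quadratic hv (-Complex.I * a)
  have h2 : ∑' n : ℤ, Complex.exp (-π * ((u⁻¹ : ℝ) : ℂ) * n ^ 2 +
      2 * π * (-Complex.I * a) * n) =
      ∑' n : ℤ, ((Real.exp (-(π * (n : ℝ) ^ 2 * u⁻¹)) : ℝ) : ℂ) *
        Complex.exp (-(2 * π * a * n) * Complex.I) := by
    refine tsum_congr fun n => ?_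
    rw [Complex.ofReal_exp, ← Complex.exp_add]
    congr 1
    push_cast
    ring
  have h3 : ∑' n : ℤ, Complex.exp (-π / ((u⁻¹ : ℝ) : ℂ) *
      (n + Complex.I * (-Complex.I * a)) ^ 2) =
      ((∑' x : ℤ, Real.exp (-(π * ((x : ℝ) + a) ^ 2 * u)) : ℝ) : ℂ) := by
    rw [Complex.ofReal_tsum]
    refine tsum_congr fun n => ?_
    rw [Complex.ofReal_exp]
    congr 1
    have h4 : Complex.I * (-Complex.I * a) = a := by
      have := Complex.I_mul_I
      linear_combination (-(a : ℂ)) * this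
    rw [h4]
    push_cast
    have hu' : (u : ℂ) ≠ 0 := by exact_mod_cast hu.ne'
    field_simp
  rw [← h2, h1, h3]
  have h5 : (1 : ℂ) / ((u⁻¹ : ℝ) : ℂ) ^ (1 / 2 : ℂ) = ((Real.sqrt u : ℝ) : ℂ) := by
    have h6 : ((u⁻¹ : ℝ) : ℂ) ^ (1 / 2 : ℂ) = (((Real.sqrt u)⁻¹ : ℝ) : ℂ) := by
      have h7 : ((1 / 2 : ℝ) : ℂ) = (1 / 2 : ℂ) := by push_cast; rfl
      rw [← h7, ← Complex.ofReal_cpow (inv_pos.2 hu).le, ← Real.sqrt_eq_rpow, Real.sqrt_inv]
    rw [h6]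
    push_cast
    rw [one_div, inv_inv]
  rw [h5, ← mul_assoc, ← Complex.ofReal_mul, inv_mul_cancel₀ (Real.sqrt_pos.2 hu).ne',
    Complex.ofReal_one, one_mul]

/-- sums over residues of a character -/
theorem root_sum (D : ℕ) (hD : 1 ≤ D) (m : ℤ) :
    ∑ k ∈ Finset.range D, Complex.exp (-(2 * π * m * ((k : ℂ) / D)) * Complex.I) =
      if (D : ℤ) ∣ m then (D : ℂ) else 0 := by
  have hD0 : (D : ℂ) ≠ 0 := by
    have : D ≠ 0 := by omega
    exact_mod_cast this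
  obtain ⟨z, hz⟩ : ∃ z : ℂ, z = Complex.exp (-(2 * π * m * (1 / D)) * Complex.I) := ⟨_, rfl⟩
  have h1 : ∀ k : ℕ, Complex.exp (-(2 * π * m * ((k : ℂ) / D)) * Complex.I) = z ^ k := by
    intro k
    rw [hz, ← Complex.exp_nat_mul]
    congr 1
    ring
  simp only [h1]
  split_ifs with h
  · obtain ⟨j, hj⟩ := h
    have h2 : z = 1 := by
      rw [hz, Complex.exp_eq_one_iff]
      refine ⟨-j, ?_⟩
      rw [hj]
      push_cast
      field_simp
    rw [h2]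
    simp
  · have h2 : z ≠ 1 := by
      intro h3
      rw [hz, Complex.exp_eq_one_iff] at h3
      obtain ⟨j, hj⟩ := h3
      apply h
      refine ⟨-j, ?_⟩
      have h4 : (m : ℂ) = D * (-j : ℂ) := by
        have h5 : (2 * π * Complex.I : ℂ) ≠ 0 := Complex.two_pi_I_ne_zero
        have h6 : (2 * π * Complex.I : ℂ) * (-(m : ℂ)) = (2 * π * Complex.I : ℂ) * (D * j) := by
          have h7 : -(2 * π * m * (1 / D)) * Complex.I * D =
              (2 * π * Complex.I : ℂ) * (-(m : ℂ)) := by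
            field_simp
          rw [← h7, hj]
          ring
        have h8 := mul_left_cancel₀ h5 h6
        linear_combination -h8
      have h6 : ((m : ℤ) : ℂ) = (((D : ℤ) * (-j) : ℤ) : ℂ) := by
        push_cast
        exact h4
      exact_mod_cast h6
    have h3 : z ^ D = 1 := by
      rw [← h1, div_self hD0, mul_one, Complex.exp_eq_one_iff]
      exact ⟨-m, by push_cast; ring⟩
    have h4 := mul_geom_sum z D
    rw [h3, sub_self] at h4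
    rcases mul_eq_zero.1 h4 with h5 | h5
    · exact absurd (sub_eq_zero.1 h5) h2
    · exact h5

/-- iterated sums, second variable outside -/
theorem tsum_swap {E : Type} [NormedAddCommGroup E] [CompleteSpace E] (f : ℤ × ℤ → E)
    (hf : Summable f) : ∑' p, f p = ∑' y : ℤ, ∑' x : ℤ, f (x, y) := by
  have h1 : Summable (fun p : ℤ × ℤ => f p.swap) :=
    (Equiv.prodComm ℤ ℤ).summable_iff.2 hf
  rw [← (Equiv.prodComm ℤ ℤ).tsum_eq f]
  have h2 : ∑' p : ℤ × ℤ, f ((Equiv.prodComm ℤ ℤ) p) = ∑' p : ℤ × ℤ, f p.swap := rfl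
  rw [h2, h1.tsum_prod]
  rfl

theorem natAbs_sum (f : ℕ → ℝ) (hf : Summable f) (h0 : f 0 = 0) :
    HasSum (fun n : ℤ => f n.natAbs) (2 * ∑' n : ℕ, f n) := by
  obtain ⟨F, hF⟩ : ∃ F : ℤ → ℝ, F = fun n : ℤ => f n.natAbs := ⟨_, rfl⟩
  have h1 : HasSum (fun n : ℕ => F n) (∑' n : ℕ, f n) := by
    have h3 : (fun n : ℕ => F n) = f := by
      funext n
      rw [hF]
      simp only
      rw [Int.natAbs_natCast]
    rw [h3]
    exact hf.hasSum
  have h2 : HasSum (fun n : ℕ => F (-((n : ℤ) + 1))) (∑' n : ℕ, f n) := by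
    have h3 : HasSum (fun n : ℕ => f (n + 1)) (∑' n : ℕ, f n) := by
      refine (hasSum_nat_add_iff 1).2 ?_
      rw [Finset.sum_range_one, h0, add_zero]
      exact hf.hasSum
    have h4 : (fun n : ℕ => F (-((n : ℤ) + 1))) = fun n : ℕ => f (n + 1) := by
      funext n
      rw [hF]
      simp only
      congr 1
    rw [h4]
    exact h3
  have h3 := h1.of_nat_of_neg_add_one h2
  rw [two_mul, ← hF]
  exact h3

/-- the Gaussian in two variables -/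
noncomputable def Gg (u w : ℝ) (p : ℤ × ℤ) : ℝ :=
  Real.exp (-(π * (p.1 : ℝ) ^ 2 * u⁻¹)) * Real.exp (-(π * (p.2 : ℝ) ^ 2 * w))

theorem Gg_sum (u w : ℝ) (hu : 0 < u) (hw : 0 < w) : Summable (Gg u w) :=
  (sZ u⁻¹ (inv_pos.2 hu)).mul_of_nonneg (sZ w hw) (fun _ => (Real.exp_pos _).le)
    (fun _ => (Real.exp_pos _).le)

theorem Gg_nonneg (u w : ℝ) (p : ℤ × ℤ) : 0 ≤ Gg u w p :=
  mul_nonneg (Real.exp_pos _).le (Real.exp_pos _).le

/-- the twisted Gaussian -/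
noncomputable def Gb (u w b : ℝ) (p : ℤ × ℤ) : ℂ :=
  ((Gg u w p : ℝ) : ℂ) * Complex.exp (-(2 * π * (b * p.2) * p.1) * Complex.I)

theorem norm_ph (x : ℝ) : ‖Complex.exp (-((x : ℝ) : ℂ) * Complex.I)‖ = 1 := by
  have h : -((x : ℝ) : ℂ) * Complex.I = ((-x : ℝ) : ℂ) * Complex.I := by push_cast; ring
  rw [h, Complex.norm_exp_ofReal_mul_I]

theorem norm_Gb (u w b : ℝ) (p : ℤ × ℤ) : ‖Gb u w b p‖ = Gg u w p := by
  unfold Gb
  have h : (-(2 * π * (b * p.2) * p.1) * Complex.I : ℂ) =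
      -((2 * π * (b * p.2) * p.1 : ℝ) : ℂ) * Complex.I := by push_cast; ring
  rw [h, norm_mul, norm_ph, mul_one, Complex.norm_real, Real.norm_of_nonneg (Gg_nonneg u w p)]

theorem Gb_sum (u w b : ℝ) (hu : 0 < u) (hw : 0 < w) : Summable (Gb u w b) := by
  refine Summable.of_norm ?_
  refine (Gg_sum u w hu hw).congr fun p => ?_
  rw [norm_Gb]

theorem Th_eq (hTHE : T_THE) (A Δ t b : ℝ) (hA : 0 < A) (hΔ : 0 < Δ) (ht : 0 < t) (u w : ℝ)
    (hu : u = 2 * t * A / Real.sqrt Δ) (hw : w = t * Real.sqrt Δ / (2 * A)) :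
    ((Th A (2 * A * b) Δ t : ℝ) : ℂ) =
      (((Real.sqrt u)⁻¹ : ℝ) : ℂ) * ∑' p : ℤ × ℤ, Gb u w b p := by
  have hs : 0 < Real.sqrt Δ := Real.sqrt_pos.2 hΔ
  have hu0 : 0 < u := by rw [hu]; positivity
  have hw0 : 0 < w := by rw [hw]; positivity
  have h1 : ∀ v : ℤ × ℤ, Real.exp (-(2 * π * t * (qd A (2 * A * b) Δ v / Real.sqrt Δ))) =
      Real.exp (-(π * ((v.1 : ℝ) + b * v.2) ^ 2 * u)) *
        Real.exp (-(π * (v.2 : ℝ) ^ 2 * w)) := by
    intro v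
    rw [← Real.exp_add]
    congr 1
    unfold qd
    rw [hu, hw]
    have h2 : Real.sqrt Δ * Real.sqrt Δ = Δ := Real.mul_self_sqrt hΔ.le
    obtain ⟨q, hq⟩ : ∃ q : ℝ, q = Real.sqrt Δ := ⟨_, rfl⟩
    rw [← hq] at h2 hs ⊢
    rw [← h2]
    field_simp
    ring
  have hsum : Summable (fun v : ℤ × ℤ => Real.exp (-(π * ((v.1 : ℝ) + b * v.2) ^ 2 * u)) *
        Real.exp (-(π * (v.2 : ℝ) ^ 2 * w))) :=
    (hTHE A (2 * A * b) Δ t hA hΔ ht).1.congr h1
  unfold Th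
  rw [tsum_congr h1, tsum_swap _ hsum, tsum_swap _ (Gb_sum u w b hu0 hw0), ← tsum_mul_left,
    Complex.ofReal_tsum]
  refine tsum_congr fun y => ?_
  dsimp only
  rw [tsum_mul_right, Complex.ofReal_mul, poisson u (b * y) hu0, mul_assoc, ← tsum_mul_right]
  congr 1
  refine tsum_congr fun n => ?_
  unfold Gb Gg
  push_cast
  ring

/-- the average -/
theorem avg_eq (u w β : ℝ) (hu : 0 < u) (hw : 0 < w) (D : ℕ) (hD : 1 ≤ D) :
    (1 / (D : ℂ)) * ∑ k ∈ Finset.range D, ∑' p : ℤ × ℤ, Gb u w (β + k / D) p =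
      ∑' p : ℤ × ℤ, Gb u w β p * if (D : ℤ) ∣ p.1 * p.2 then 1 else 0 := by
  have hD0 : (D : ℂ) ≠ 0 := by
    have : D ≠ 0 := by omega
    exact_mod_cast this
  have h0 := Summable.tsum_finsetSum (s := Finset.range D)
    (f := fun (k : ℕ) (p : ℤ × ℤ) => Gb u w (β + (k : ℝ) / D) p)
    fun k _ => Gb_sum u w (β + (k : ℝ) / D) hu hw
  rw [← h0, ← tsum_mul_left]
  refine tsum_congr fun p => ?_
  have h1 : ∀ k : ℕ, Gb u w (β + k / D) p = Gb u w β p *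
      Complex.exp (-(2 * π * ((p.1 * p.2 : ℤ) : ℂ) * ((k : ℂ) / D)) * Complex.I) := by
    intro k
    unfold Gb
    rw [mul_assoc ((Gg u w p : ℝ) : ℂ) (Complex.exp _) (Complex.exp _), ← Complex.exp_add]
    congr 2
    push_cast
    ring
  rw [Finset.sum_congr rfl fun k _ => h1 k, ← Finset.mul_sum, root_sum D hD]
  split_ifs with h
  · field_simp
  · ring

/-- the function in the bound -/
noncomputable def Rr (u w : ℝ) (D : ℕ) (x : ℕ × ℕ) : ℝ :=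
  if 1 ≤ x.1 ∧ 1 ≤ x.2 ∧ D ∣ x.1 * x.2 then
    Real.exp (-(π * ((x.1 : ℝ) ^ 2 * u⁻¹ + (x.2 : ℝ) ^ 2 * w))) else 0

theorem Rr_nonneg (u w : ℝ) (D : ℕ) (x : ℕ × ℕ) : 0 ≤ Rr u w D x := by
  unfold Rr
  split_ifs
  · exact (Real.exp_pos _).le
  · exact le_rfl

theorem Rr_le (u w : ℝ) (D : ℕ) (x : ℕ × ℕ) : Rr u w D x ≤
    Real.exp (-(π * (x.1 : ℝ) ^ 2 * u⁻¹)) * Real.exp (-(π * (x.2 : ℝ) ^ 2 * w)) := by
  unfold Rr
  rw [← Real.exp_add]
  split_ifs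
  · refine le_of_eq ?_
    congr 1
    ring
  · exact (Real.exp_pos _).le

theorem Rr_sum (u w : ℝ) (D : ℕ) (hu : 0 < u) (hw : 0 < w) : Summable (Rr u w D) := by
  refine Summable.of_nonneg_of_le (Rr_nonneg u w D) (Rr_le u w D) ?_
  exact (sN u⁻¹ (inv_pos.2 hu)).mul_of_nonneg (sN w hw) (fun _ => (Real.exp_pos _).le)
    (fun _ => (Real.exp_pos _).le)

theorem natAbs_cast_sq (n : ℤ) : ((n.natAbs : ℕ) : ℝ) ^ 2 = (n : ℝ) ^ 2 := by
  rw [Nat.cast_natAbs, Int.cast_abs, sq_abs]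

theorem Rr_sumZ (u w : ℝ) (D : ℕ) (hu : 0 < u) (hw : 0 < w) :
    Summable (fun p : ℤ × ℤ => Rr u w D (p.1.natAbs, p.2.natAbs)) := by
  refine Summable.of_nonneg_of_le (fun p => Rr_nonneg u w D _) (fun p => ?_) (Gg_sum u w hu hw)
  refine (Rr_le u w D _).trans (le_of_eq ?_)
  unfold Gg
  simp only
  rw [natAbs_cast_sq, natAbs_cast_sq]

theorem Rr_tsumZ (u w : ℝ) (D : ℕ) (hu : 0 < u) (hw : 0 < w) :
    ∑' p : ℤ × ℤ, Rr u w D (p.1.natAbs, p.2.natAbs) = 4 * ∑' x : ℕ × ℕ, Rr u w D x := by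
  have hs := Rr_sum u w D hu hw
  rw [(Rr_sumZ u w D hu hw).tsum_prod, hs.tsum_prod]
  have h1 : ∀ x : ℤ, ∑' y : ℤ, Rr u w D (x.natAbs, y.natAbs) =
      2 * ∑' m : ℕ, Rr u w D (x.natAbs, m) := by
    intro x
    refine (natAbs_sum (fun m => Rr u w D (x.natAbs, m)) (hs.prod_factor x.natAbs) ?_).tsum_eq
    unfold Rr
    simp
  simp only [h1]
  rw [tsum_mul_left, (natAbs_sum (fun n => ∑' m : ℕ, Rr u w D (n, m)) hs.prod ?_).tsum_eq]
  · ring
  · have h2 : ∀ m : ℕ, Rr u w D (0, m) = 0 := by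
      intro m
      unfold Rr
      simp
    simp only [h2, tsum_zero]

/-- the main part -/
noncomputable def Mm (u w : ℝ) (p : ℤ × ℤ) : ℝ :=
  Real.exp (-(π * (p.1 : ℝ) ^ 2 * u⁻¹)) * (if p.2 = 0 then 1 else 0) +
    (if p.1 = 0 then 1 else 0) * (if p.2 = 0 then 0 else Real.exp (-(π * (p.2 : ℝ) ^ 2 * w)))

theorem delta_hasSum : HasSum (fun y : ℤ => if y = 0 then (1 : ℝ) else 0) 1 :=
  hasSum_ite_eq 0 1

theorem a1_hasSum (w : ℝ) (hw : 0 < w) : HasSum (fun y : ℤ => if y = 0 then (0 : ℝ) else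
    Real.exp (-(π * (y : ℝ) ^ 2 * w))) (th1 w - 1) := by
  have h1 := (sZ w hw).hasSum.sub delta_hasSum
  have h2 : (fun y : ℤ => if y = 0 then (0 : ℝ) else Real.exp (-(π * (y : ℝ) ^ 2 * w))) =
      fun y : ℤ => Real.exp (-(π * (y : ℝ) ^ 2 * w)) - if y = 0 then (1 : ℝ) else 0 := by
    funext y
    split_ifs with h
    · rw [h]
      simp
    · rw [sub_zero]
  rw [h2]
  exact h1

theorem Mm_hasSum (u w : ℝ) (hu : 0 < u) (hw : 0 < w) :
    HasSum (Mm u w) (th1 u⁻¹ + (th1 w - 1)) := by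
  have hc : HasSum (fun n : ℤ => Real.exp (-(π * (n : ℝ) ^ 2 * u⁻¹))) (th1 u⁻¹) :=
    (sZ u⁻¹ (inv_pos.2 hu)).hasSum
  have s1 : Summable (fun p : ℤ × ℤ => Real.exp (-(π * (p.1 : ℝ) ^ 2 * u⁻¹)) *
      (if p.2 = 0 then (1 : ℝ) else 0)) :=
    hc.summable.mul_of_nonneg delta_hasSum.summable (fun _ => (Real.exp_pos _).le)
      (fun y => by
        show (0 : ℝ) ≤ if y = 0 then 1 else 0
        split_ifs <;> norm_num)
  have s2 : Summable (fun p : ℤ × ℤ => (if p.1 = 0 then (1 : ℝ) else 0) *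
      (if p.2 = 0 then 0 else Real.exp (-(π * (p.2 : ℝ) ^ 2 * w)))) :=
    delta_hasSum.summable.mul_of_nonneg (a1_hasSum w hw).summable
      (fun y => by
        show (0 : ℝ) ≤ if y = 0 then 1 else 0
        split_ifs <;> norm_num)
      (fun y => by
        show (0 : ℝ) ≤ if y = 0 then 0 else Real.exp (-(π * (y : ℝ) ^ 2 * w))
        split_ifs
        · exact le_rfl
        · exact (Real.exp_pos _).le)
  have h1 := hc.mul delta_hasSum s1
  have h2 := delta_hasSum.mul (a1_hasSum w hw) s2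
  have h3 := h1.add h2
  rw [mul_one, one_mul] at h3
  exact h3

theorem diff_le (u w β : ℝ) (D : ℕ) (p : ℤ × ℤ) :
    ‖Gb u w β p * (if (D : ℤ) ∣ p.1 * p.2 then 1 else 0) - ((Mm u w p : ℝ) : ℂ)‖ ≤
      Rr u w D (p.1.natAbs, p.2.natAbs) := by
  by_cases h2 : p.2 = 0
  · have h3 : Gb u w β p * (if (D : ℤ) ∣ p.1 * p.2 then 1 else 0) - ((Mm u w p : ℝ) : ℂ) = 0 := by
      unfold Gb Mm Gg
      rw [h2]
      simp
    rw [h3, norm_zero]
    exact Rr_nonneg u w D _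
  · by_cases h1 : p.1 = 0
    · have h3 : Gb u w β p * (if (D : ℤ) ∣ p.1 * p.2 then 1 else 0) - ((Mm u w p : ℝ) : ℂ) =
          0 := by
        unfold Gb Mm Gg
        rw [h1]
        simp [h2]
      rw [h3, norm_zero]
      exact Rr_nonneg u w D _
    · have h3 : Mm u w p = 0 := by
        unfold Mm
        simp [h1, h2]
      rw [h3, Complex.ofReal_zero, sub_zero, norm_mul, norm_Gb]
      unfold Rr
      simp only
      have h4 : 1 ≤ p.1.natAbs := Int.natAbs_pos.2 h1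
      have h5 : 1 ≤ p.2.natAbs := Int.natAbs_pos.2 h2
      have h6 : (D : ℤ) ∣ p.1 * p.2 ↔ D ∣ p.1.natAbs * p.2.natAbs := by
        rw [← Int.natAbs_mul, Int.natCast_dvd]
      by_cases h7 : (D : ℤ) ∣ p.1 * p.2
      · rw [if_pos h7, if_pos ⟨h4, h5, h6.1 h7⟩, norm_one, mul_one]
        refine le_of_eq ?_
        unfold Gg
        rw [natAbs_cast_sq, natAbs_cast_sq, ← Real.exp_add]
        congr 1
        ring
      · rw [if_neg h7, norm_zero, mul_zero]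
        split_ifs
        · exact (Real.exp_pos _).le
        · exact le_rfl

theorem pf_THA (hTHE : T_THE) : T_THA := by
  intro A Δ t β D hA hΔ ht hD
  have hs : 0 < Real.sqrt Δ := Real.sqrt_pos.2 hΔ
  obtain ⟨u, hu⟩ : ∃ u : ℝ, u = 2 * t * A / Real.sqrt Δ := ⟨_, rfl⟩
  obtain ⟨w, hw⟩ : ∃ w : ℝ, w = t * Real.sqrt Δ / (2 * A) := ⟨_, rfl⟩
  have hu0 : 0 < u := by rw [hu]; positivity
  have hw0 : 0 < w := by rw [hw]; positivity
  have hui : Real.sqrt Δ / (2 * t * A) = u⁻¹ := by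
    rw [hu, inv_div]
  rw [hui, ← hu, ← hw]
  refine ⟨Rr_sum u w D hu0 hw0, ?_⟩
  have hR : ∑' x : ℕ × ℕ, (if 1 ≤ x.1 ∧ 1 ≤ x.2 ∧ D ∣ x.1 * x.2 then
      Real.exp (-(π * ((x.1 : ℝ) ^ 2 * u⁻¹ + (x.2 : ℝ) ^ 2 * w))) else 0) =
      ∑' x : ℕ × ℕ, Rr u w D x := rfl
  rw [hR]
  have hsu : Real.sqrt u⁻¹ = (Real.sqrt u)⁻¹ := Real.sqrt_inv u
  rw [hsu]
  have hsu0 : 0 < Real.sqrt u := Real.sqrt_pos.2 hu0
  -- the complex identity
  have h1 : (((1 / (D : ℝ)) * ∑ k ∈ Finset.range D, Th A (2 * A * (β + k / D)) Δ t -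
      (th1 u + (Real.sqrt u)⁻¹ * (th1 w - 1)) : ℝ) : ℂ) =
      (((Real.sqrt u)⁻¹ : ℝ) : ℂ) * ∑' p : ℤ × ℤ, (Gb u w β p *
        (if (D : ℤ) ∣ p.1 * p.2 then 1 else 0) - ((Mm u w p : ℝ) : ℂ)) := by
    have hsH : Summable (fun p : ℤ × ℤ => Gb u w β p *
        (if (D : ℤ) ∣ p.1 * p.2 then (1 : ℂ) else 0)) := by
      refine Summable.of_norm_bounded (Gg_sum u w hu0 hw0) fun p => ?_
      rw [norm_mul, norm_Gb]
      refine mul_le_of_le_one_right (Gg_nonneg u w p) ?_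
      split_ifs <;> simp
    have hM := Mm_hasSum u w hu0 hw0
    have hM' : HasSum (fun p => ((Mm u w p : ℝ) : ℂ)) ((th1 u⁻¹ + (th1 w - 1) : ℝ) : ℂ) :=
      Complex.hasSum_ofReal.2 hM
    rw [hsH.tsum_sub hM'.summable, hM'.tsum_eq, ← avg_eq u w β hu0 hw0 D hD]
    push_cast
    have h2 : ∀ k : ℕ, ((Th A (2 * A * (β + k / D)) Δ t : ℝ) : ℂ) =
        (((Real.sqrt u)⁻¹ : ℝ) : ℂ) * ∑' p : ℤ × ℤ, Gb u w (β + k / D) p := fun k =>
      Th_eq hTHE A Δ t (β + k / D) hA hΔ ht u w hu hw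
    rw [Finset.sum_congr rfl fun k _ => h2 k, ← Finset.mul_sum]
    have h3 : th1 u = (Real.sqrt u)⁻¹ * th1 u⁻¹ := by
      rw [th1_feq u hu0, ← mul_assoc, inv_mul_cancel₀ hsu0.ne', one_mul]
    rw [h3]
    push_cast
    ring
  have h2 := congrArg norm h1
  rw [Complex.norm_real, Real.norm_eq_abs, norm_mul, Complex.norm_real,
    Real.norm_of_nonneg (inv_pos.2 hsu0).le] at h2
  rw [h2, mul_assoc]
  refine mul_le_mul_of_nonneg_left ?_ (inv_pos.2 hsu0).le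
  rw [← Rr_tsumZ u w D hu0 hw0]
  exact tsum_of_norm_bounded (Rr_sumZ u w D hu0 hw0).hasSum fun p => diff_le u w β D p

end Pool.Agent.H25.CN
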