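import Pool.Agent.H31.CN.T2
import Pool.Agent.H25.CN.THA

/-! # BAV: the average of the central value over the middle coefficient -/

set_option autoImplicit false

open MeasureTheory Set Filter
open scoped Real Matrix MatrixGroups Topology

namespace Pool.Agent.H25.CN

open Pool.Agent.H31.CN

/-- the sum in the bound -/
theorem Rr_bound (u w : ℝ) (D : ℕ) (hu : 0 < u) (hw : 0 < w) (r : ℝ) (hr : 0 ≤ r)
    (hr2 : r ^ 2 ≤ u⁻¹ * w) :
    ∑' x : ℕ × ℕ, Rr u w D x ≤ Real.exp (-(π * (r * D))) *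
      ((2 * (1 + 1 / Real.sqrt (u⁻¹ / 2))) * (2 * (1 + 1 / Real.sqrt (w / 2)) *
        Real.exp (-(π * (w / 2))))) := by
  have hu2 : 0 < u⁻¹ / 2 := by positivity
  have hw2 : 0 < w / 2 := by positivity
  obtain ⟨a, ha⟩ : ∃ a : ℕ → ℝ, a = fun n : ℕ => if n = 0 then 0 else
    Real.exp (-(π * (n : ℝ) ^ 2 * (u⁻¹ / 2))) := ⟨_, rfl⟩
  obtain ⟨b, hb⟩ : ∃ b : ℕ → ℝ, b = fun n : ℕ => if n = 0 then 0 else
    Real.exp (-(π * (n : ℝ) ^ 2 * (w / 2))) := ⟨_, rfl⟩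
  have key : ∀ v : ℝ, 0 < v → HasSum (fun n : ℕ => if n = 0 then (0 : ℝ) else
      Real.exp (-(π * (n : ℝ) ^ 2 * v))) ((th1 v - 1) / 2) := by
    intro v hv
    refine (hasSum_nat_add_iff' 1).1 ?_
    rw [Finset.sum_range_one, if_pos rfl, sub_zero]
    have h1 := (sN1 v hv).hasSum
    have h2 := th1_eq v hv
    have h3 : ∑' n : ℕ, Real.exp (-(π * ((n : ℝ) + 1) ^ 2 * v)) = (th1 v - 1) / 2 := by
      linarith
    rw [h3] at h1
    have h4 : (fun n : ℕ => if n + 1 = 0 then (0 : ℝ) else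
        Real.exp (-(π * ((n + 1 : ℕ) : ℝ) ^ 2 * v))) =
        fun n : ℕ => Real.exp (-(π * ((n : ℝ) + 1) ^ 2 * v)) := by
      funext n
      rw [if_neg (Nat.succ_ne_zero n)]
      push_cast
      rfl
    rw [h4]
    exact h1
  have hA := key _ hu2
  have hB := key _ hw2
  rw [← ha] at hA
  rw [← hb] at hB
  have ha0 : ∀ n, 0 ≤ a n := by
    intro n
    rw [ha]
    simp only
    split_ifs
    · exact le_rfl
    · exact (Real.exp_pos _).le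
  have hb0 : ∀ n, 0 ≤ b n := by
    intro n
    rw [hb]
    simp only
    split_ifs
    · exact le_rfl
    · exact (Real.exp_pos _).le
  have hAB : HasSum (fun x : ℕ × ℕ => a x.1 * b x.2)
      ((th1 (u⁻¹ / 2) - 1) / 2 * ((th1 (w / 2) - 1) / 2)) :=
    hA.mul hB (hA.summable.mul_of_nonneg hB.summable ha0 hb0)
  have hle : ∀ x : ℕ × ℕ, Rr u w D x ≤ Real.exp (-(π * (r * D))) * (a x.1 * b x.2) := by
    intro x
    unfold Rr
    split_ifs with h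
    · obtain ⟨h1, h2, h3⟩ := h
      rw [ha, hb]
      simp only
      rw [if_neg (by omega), if_neg (by omega), ← Real.exp_add, ← Real.exp_add]
      refine Real.exp_le_exp.2 ?_
      have h4 : (D : ℝ) ≤ x.1 * x.2 := by
        exact_mod_cast Nat.le_of_dvd (Nat.mul_pos h1 h2) h3
      have h5 : r * D ≤ ((x.1 : ℝ) ^ 2 * u⁻¹ + (x.2 : ℝ) ^ 2 * w) / 2 := by
        have h6 : r * D ≤ r * (x.1 * x.2) := mul_le_mul_of_nonneg_left h4 hr
        refine h6.trans ?_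
        have hp : 0 ≤ u⁻¹ := (inv_pos.2 hu).le
        have h7 : (r * (x.1 * x.2)) ^ 2 ≤
            (((x.1 : ℝ) ^ 2 * u⁻¹ + (x.2 : ℝ) ^ 2 * w) / 2) ^ 2 := by
          have h8 : (r * ((x.1 : ℝ) * x.2)) ^ 2 = r ^ 2 * ((x.1 : ℝ) ^ 2 * (x.2 : ℝ) ^ 2) := by
            ring
          have h9 : r ^ 2 * ((x.1 : ℝ) ^ 2 * (x.2 : ℝ) ^ 2) ≤
              (u⁻¹ * w) * ((x.1 : ℝ) ^ 2 * (x.2 : ℝ) ^ 2) :=
            mul_le_mul_of_nonneg_right hr2 (by positivity)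
          rw [h8]
          refine h9.trans ?_
          nlinarith [sq_nonneg ((x.1 : ℝ) ^ 2 * u⁻¹ - (x.2 : ℝ) ^ 2 * w)]
        exact (pow_le_pow_iff_left₀ (by positivity) (by positivity) two_ne_zero).1 h7
      have h10 := Real.pi_pos
      nlinarith
    · exact mul_nonneg (Real.exp_pos _).le (mul_nonneg (ha0 _) (hb0 _))
  have h1 := (Rr_sum u w D hu hw).tsum_le_tsum hle (hAB.summable.mul_left _)
  rw [tsum_mul_left, hAB.tsum_eq] at h1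
  refine h1.trans (mul_le_mul_of_nonneg_left ?_ (Real.exp_pos _).le)
  have h2 := th1_le (u⁻¹ / 2) hu2
  have h3 := th1_le (w / 2) hw2
  have h4 : Real.exp (-(π * (u⁻¹ / 2))) ≤ 1 := by
    rw [Real.exp_le_one_iff]
    have := Real.pi_pos
    have : 0 < π * (u⁻¹ / 2) := by positivity
    linarith
  have h5 : 0 < 1 / Real.sqrt (u⁻¹ / 2) := one_div_pos.2 (Real.sqrt_pos.2 hu2)
  have h6 : 0 < 1 / Real.sqrt (w / 2) := one_div_pos.2 (Real.sqrt_pos.2 hw2)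
  have h7 : (th1 (u⁻¹ / 2) - 1) / 2 ≤ 2 * (1 + 1 / Real.sqrt (u⁻¹ / 2)) := by
    have h8 : 4 * (1 + 1 / Real.sqrt (u⁻¹ / 2)) * Real.exp (-(π * (u⁻¹ / 2))) ≤
        4 * (1 + 1 / Real.sqrt (u⁻¹ / 2)) * 1 :=
      mul_le_mul_of_nonneg_left h4 (by linarith)
    linarith
  have h8 : (th1 (w / 2) - 1) / 2 ≤ 2 * (1 + 1 / Real.sqrt (w / 2)) *
      Real.exp (-(π * (w / 2))) := by linarith
  have h9 := th1_nonneg (w / 2) hw2
  exact mul_le_mul h7 h8 (by linarith) (by linarith)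

theorem pt_bound (ρ t : ℝ) (D : ℕ) (hρ : 0 < ρ) (ht : 1 ≤ t) (u w : ℝ) (hu0 : 0 < u)
    (hw0 : 0 < w) (hu : u⁻¹ = ρ / t) (hw : w = ρ * t) :
    Real.sqrt (ρ / t) * 4 * (∑' x : ℕ × ℕ, Rr u w D x) * t ^ (-(1 / 2) : ℝ) ≤
      (16 * Real.exp (-(π * (ρ * D))) * ((Real.sqrt ρ + Real.sqrt 2) *
        (1 + Real.sqrt 2 / Real.sqrt ρ))) * Real.exp (-(π * ρ / 2) * t) := by
  have ht0 : 0 < t := by linarith
  have hsρ : 0 < Real.sqrt ρ := Real.sqrt_pos.2 hρ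
  have hs2 : 0 < Real.sqrt 2 := Real.sqrt_pos.2 two_pos
  have hst : 1 ≤ Real.sqrt t := by
    rw [← Real.sqrt_one]
    exact Real.sqrt_le_sqrt ht
  have h1 := Rr_bound u w D hu0 hw0 ρ hρ.le (by
    rw [hu, hw]
    refine le_of_eq ?_
    field_simp)
  have e1 : Real.sqrt (ρ / t) = Real.sqrt ρ / Real.sqrt t := Real.sqrt_div hρ.le t
  have e2 : 1 / Real.sqrt (u⁻¹ / 2) = Real.sqrt 2 * Real.sqrt t / Real.sqrt ρ := by
    rw [hu, Real.sqrt_div (by positivity), e1]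
    field_simp
  have e3 : 1 / Real.sqrt (w / 2) = Real.sqrt 2 / (Real.sqrt ρ * Real.sqrt t) := by
    rw [hw, Real.sqrt_div (by positivity), Real.sqrt_mul hρ.le]
    field_simp
  have e4 : t ^ (-(1 / 2) : ℝ) ≤ 1 := Real.rpow_le_one_of_one_le_of_nonpos ht (by norm_num)
  have e4' : 0 ≤ t ^ (-(1 / 2) : ℝ) := (Real.rpow_pos_of_pos ht0 _).le
  have e5 : Real.sqrt (ρ / t) * (1 + 1 / Real.sqrt (u⁻¹ / 2)) ≤ Real.sqrt ρ + Real.sqrt 2 := by
    rw [e1, e2]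
    have h2 : Real.sqrt ρ / Real.sqrt t * (1 + Real.sqrt 2 * Real.sqrt t / Real.sqrt ρ) =
        Real.sqrt ρ / Real.sqrt t + Real.sqrt 2 := by
      field_simp
    rw [h2]
    have h3 : Real.sqrt ρ / Real.sqrt t ≤ Real.sqrt ρ := div_le_self hsρ.le hst
    linarith
  have e6 : 1 + 1 / Real.sqrt (w / 2) ≤ 1 + Real.sqrt 2 / Real.sqrt ρ := by
    rw [e3]
    have h2 : Real.sqrt 2 / (Real.sqrt ρ * Real.sqrt t) ≤ Real.sqrt 2 / Real.sqrt ρ := by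
      refine div_le_div_of_nonneg_left hs2.le hsρ ?_
      nlinarith
    linarith
  have e7 : Real.exp (-(π * (w / 2))) = Real.exp (-(π * ρ / 2) * t) := by
    rw [hw]
    congr 1
    ring
  rw [e7] at h1
  have h5 : 0 ≤ Real.sqrt (ρ / t) := Real.sqrt_nonneg _
  have h6 : 0 ≤ 1 + 1 / Real.sqrt (u⁻¹ / 2) := by positivity
  have h7 : 0 ≤ 1 + 1 / Real.sqrt (w / 2) := by positivity
  have h8 : 0 ≤ ∑' x : ℕ × ℕ, Rr u w D x := tsum_nonneg fun x => Rr_nonneg u w D x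
  calc Real.sqrt (ρ / t) * 4 * (∑' x : ℕ × ℕ, Rr u w D x) * t ^ (-(1 / 2) : ℝ)
      ≤ Real.sqrt (ρ / t) * 4 * (∑' x : ℕ × ℕ, Rr u w D x) * 1 := by gcongr
    _ ≤ Real.sqrt (ρ / t) * 4 * (Real.exp (-(π * (ρ * D))) *
        ((2 * (1 + 1 / Real.sqrt (u⁻¹ / 2))) * (2 * (1 + 1 / Real.sqrt (w / 2)) *
        Real.exp (-(π * ρ / 2) * t)))) * 1 := by gcongr
    _ = 16 * Real.exp (-(π * (ρ * D))) * ((Real.sqrt (ρ / t) *
        (1 + 1 / Real.sqrt (u⁻¹ / 2))) * (1 + 1 / Real.sqrt (w / 2))) *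
          Real.exp (-(π * ρ / 2) * t) := by ring
    _ ≤ 16 * Real.exp (-(π * (ρ * D))) * ((Real.sqrt ρ + Real.sqrt 2) *
        (1 + Real.sqrt 2 / Real.sqrt ρ)) * Real.exp (-(π * ρ / 2) * t) := by gcongr

theorem pf_BAV (hZTH : T_ZTH) (hTHA : T_THA) (hCTI : T_CTI) : T_BAV := by
  refine ⟨504, by norm_num, ?_⟩
  intro A Δ β D hA hΔ hD
  have hA0 : 0 < A := by linarith
  have hΔ0 : 0 < Δ := by linarith
  have hD0 : (0 : ℝ) < D := by
    have : 0 < D := by omega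
    exact_mod_cast this
  have hsΔ : 1 ≤ Real.sqrt Δ := by
    rw [← Real.sqrt_one]
    exact Real.sqrt_le_sqrt hΔ
  have hsΔ0 : 0 < Real.sqrt Δ := by linarith
  obtain ⟨ρ, hρ⟩ : ∃ ρ : ℝ, ρ = Real.sqrt Δ / (2 * A) := ⟨_, rfl⟩
  have hρ0 : 0 < ρ := by rw [hρ]; positivity
  obtain ⟨hCi, hC⟩ := hCTI A Δ hA0 hΔ0
  -- the difference as an integral
  obtain ⟨R, hR⟩ : ∃ R : ℝ → ℝ, R = fun t =>
    ((1 / (D : ℝ)) * ∑ k ∈ Finset.range D, Th A (2 * A * (β + k / D)) Δ t -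
      (th1 (2 * t * A / Real.sqrt Δ) + Real.sqrt (Real.sqrt Δ / (2 * t * A)) *
        (th1 (t * Real.sqrt Δ / (2 * A)) - 1))) * t ^ (-(1 / 2) : ℝ) := ⟨_, rfl⟩
  have hdiff : (1 / (D : ℝ)) * ∑ k ∈ Finset.range D, zf A (2 * A * (β + k / D)) Δ - ct A Δ =
      Real.sqrt 2 * Δ ^ (-(1 / 4) : ℝ) * ∫ t in Ioi (1 : ℝ), R t := by
    have h1 : ∀ k : ℕ, zf A (2 * A * (β + k / D)) Δ = Real.sqrt 2 * Δ ^ (-(1 / 4) : ℝ) *
      ((∫ t in Ioi (1 : ℝ), (Th A (2 * A * (β + k / D)) Δ t - 1) * t ^ (-(1 / 2) : ℝ)) - 2) :=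
      fun k => (hZTH A (2 * A * (β + k / D)) Δ hA0 hΔ0).2.2
    have h1i : ∀ k : ℕ, IntegrableOn (fun t : ℝ => (Th A (2 * A * (β + k / D)) Δ t - 1) *
        t ^ (-(1 / 2) : ℝ)) (Ioi 1) :=
      fun k => (hZTH A (2 * A * (β + k / D)) Δ hA0 hΔ0).2.1
    have h2 : ∫ t in Ioi (1 : ℝ), R t = (1 / (D : ℝ)) * ∑ k ∈ Finset.range D,
        (∫ t in Ioi (1 : ℝ), (Th A (2 * A * (β + k / D)) Δ t - 1) * t ^ (-(1 / 2) : ℝ)) -
        ∫ t in Ioi (1 : ℝ), (th1 (2 * t * A / Real.sqrt Δ) +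
        Real.sqrt (Real.sqrt Δ / (2 * t * A)) * (th1 (t * Real.sqrt Δ / (2 * A)) - 1) - 1) *
          t ^ (-(1 / 2) : ℝ) := by
      rw [← integral_finsetSum _ fun k _ => h1i k, ← integral_const_mul, ← integral_sub]
      · refine integral_congr_ae (ae_of_all _ fun t => ?_)
        rw [hR]
        simp only
        rw [← Finset.sum_mul, Finset.sum_sub_distrib, Finset.sum_const, Finset.card_range,
          nsmul_eq_mul, mul_one]
        field_simp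
        ring
      · exact (integrable_finsetSum _ fun k _ => h1i k).const_mul _
      · exact hCi
    rw [← hC, h2, Finset.sum_congr rfl fun k _ => h1 k, ← Finset.mul_sum,
      Finset.sum_sub_distrib, Finset.sum_const, Finset.card_range, nsmul_eq_mul]
    generalize (∑ k ∈ Finset.range D,
      ∫ t in Ioi (1 : ℝ), (Th A (2 * A * (β + k / D)) Δ t - 1) * t ^ (-(1 / 2) : ℝ)) = S
    generalize (∫ t in Ioi (1 : ℝ), (th1 (2 * t * A / Real.sqrt Δ) +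
        Real.sqrt (Real.sqrt Δ / (2 * t * A)) * (th1 (t * Real.sqrt Δ / (2 * A)) - 1) - 1) *
          t ^ (-(1 / 2) : ℝ)) = J
    field_simp
    ring
  have hbd : ∀ t ∈ Ioi (1 : ℝ), ‖R t‖ ≤ (16 * Real.exp (-(π * (ρ * D))) *
      ((Real.sqrt ρ + Real.sqrt 2) * (1 + Real.sqrt 2 / Real.sqrt ρ))) *
        Real.exp (-(π * ρ / 2) * t) := by
    intro t ht
    have ht1 : 1 ≤ t := le_of_lt ht
    have ht0 : 0 < t := by linarith
    have h1 := (hTHA A Δ t β D hA0 hΔ0 ht0 hD).2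
    have e1 : Real.sqrt Δ / (2 * t * A) = (2 * t * A / Real.sqrt Δ)⁻¹ := by rw [inv_div]
    have e2 : (2 * t * A / Real.sqrt Δ)⁻¹ = ρ / t := by
      rw [hρ, inv_div]
      field_simp
    have e3 : t * Real.sqrt Δ / (2 * A) = ρ * t := by
      rw [hρ]
      field_simp
    have h2 : ∑' x : ℕ × ℕ, (if 1 ≤ x.1 ∧ 1 ≤ x.2 ∧ D ∣ x.1 * x.2 then
        Real.exp (-(π * ((x.1 : ℝ) ^ 2 * (Real.sqrt Δ / (2 * t * A)) +
          (x.2 : ℝ) ^ 2 * (t * Real.sqrt Δ / (2 * A))))) else 0) =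
        ∑' x : ℕ × ℕ, Rr (2 * t * A / Real.sqrt Δ) (t * Real.sqrt Δ / (2 * A)) D x := by
      rw [e1]
      rfl
    rw [h2] at h1
    rw [hR]
    simp only
    rw [norm_mul, Real.norm_eq_abs, Real.norm_eq_abs,
      abs_of_pos (Real.rpow_pos_of_pos ht0 _)]
    have h3 := pt_bound ρ t D hρ0 ht1 (2 * t * A / Real.sqrt Δ) (t * Real.sqrt Δ / (2 * A))
      (by positivity) (by positivity) e2 e3
    refine le_trans (mul_le_mul_of_nonneg_right h1 (Real.rpow_pos_of_pos ht0 _).le) ?_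
    have e4 : Real.sqrt Δ / (2 * t * A) = ρ / t := e1.trans e2
    rw [e4]
    exact h3
  have hπ := Real.pi_gt_three
  have hc : 0 < π * ρ / 2 := by positivity
  have hint : IntegrableOn (fun t : ℝ => Real.exp (-(π * ρ / 2) * t)) (Ioi 1) :=
    exp_neg_integrableOn_Ioi 1 hc
  have hval : ∫ t in Ioi (1 : ℝ), Real.exp (-(π * ρ / 2) * t) ≤ 1 / ρ := by
    rw [integral_exp_mul_Ioi (by linarith) 1]
    have h1 : Real.exp (-(π * ρ / 2) * 1) ≤ 1 := by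
      rw [Real.exp_le_one_iff]
      linarith
    rw [neg_div_neg_eq, div_le_div_iff₀ hc hρ0]
    nlinarith
  have hI : |∫ t in Ioi (1 : ℝ), R t| ≤ (16 * Real.exp (-(π * (ρ * D))) *
      ((Real.sqrt ρ + Real.sqrt 2) * (1 + Real.sqrt 2 / Real.sqrt ρ))) * (1 / ρ) := by
    have h1 := norm_integral_le_of_norm_le (hint.const_mul (16 * Real.exp (-(π * (ρ * D))) *
      ((Real.sqrt ρ + Real.sqrt 2) * (1 + Real.sqrt 2 / Real.sqrt ρ))))
      ((ae_restrict_mem measurableSet_Ioi).mono hbd)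
    rw [integral_const_mul, Real.norm_eq_abs] at h1
    refine h1.trans (mul_le_mul_of_nonneg_left hval (by positivity))
  rw [hdiff, abs_mul]
  have hs2 : Real.sqrt 2 ≤ 3 / 2 := by
    rw [Real.sqrt_le_left (by norm_num)]
    norm_num
  have hs2' : 1 ≤ Real.sqrt 2 := by
    rw [← Real.sqrt_one]
    exact Real.sqrt_le_sqrt (by norm_num)
  have h1 : |Real.sqrt 2 * Δ ^ (-(1 / 4) : ℝ)| ≤ 3 / 2 := by
    have h2 : Δ ^ (-(1 / 4) : ℝ) ≤ 1 := Real.rpow_le_one_of_one_le_of_nonpos hΔ (by norm_num)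
    have h3 : 0 ≤ Δ ^ (-(1 / 4) : ℝ) := (Real.rpow_pos_of_pos hΔ0 _).le
    rw [abs_of_nonneg (mul_nonneg (Real.sqrt_nonneg _) h3)]
    nlinarith
  have h2 : Real.exp (-(π * (ρ * D))) ≤ Real.exp (-(Real.sqrt Δ * D / A)) := by
    refine Real.exp_le_exp.2 (neg_le_neg ?_)
    have h3 : Real.sqrt Δ * D / A = 2 * (ρ * D) := by
      rw [hρ]
      field_simp
    rw [h3]
    have : 0 < ρ * D := by positivity
    nlinarith
  have h3 : ((Real.sqrt ρ + Real.sqrt 2) * (1 + Real.sqrt 2 / Real.sqrt ρ)) * (1 / ρ) ≤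
      21 * (A + Δ) ^ 3 := by
    have hsρ : 0 < Real.sqrt ρ := Real.sqrt_pos.2 hρ0
    have hq : Real.sqrt ρ * Real.sqrt ρ = ρ := Real.mul_self_sqrt hρ0.le
    have h22 : Real.sqrt 2 * Real.sqrt 2 = 2 := Real.mul_self_sqrt (by norm_num)
    have h4 : (Real.sqrt ρ + Real.sqrt 2) * (1 + Real.sqrt 2 / Real.sqrt ρ) =
        Real.sqrt ρ + 2 * Real.sqrt 2 + 2 / Real.sqrt ρ := by
      field_simp
      linear_combination h22
    have h5 : Real.sqrt ρ ≤ 1 + ρ := by nlinarith [sq_nonneg (Real.sqrt ρ - 1)]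
    have h6 : 1 / Real.sqrt ρ ≤ 1 + 1 / ρ := by
      have h7 : 1 / ρ = (1 / Real.sqrt ρ) * (1 / Real.sqrt ρ) := by
        rw [div_mul_div_comm, one_mul, hq]
      rw [h7]
      nlinarith [sq_nonneg (1 / Real.sqrt ρ - 1), one_div_pos.2 hsρ]
    have h8 : 1 / ρ ≤ 2 * A := by
      rw [hρ, one_div_div, div_le_iff₀ hsΔ0]
      nlinarith
    have h9 : 0 < 1 / ρ := one_div_pos.2 hρ0
    have h10 : (Real.sqrt ρ + 2 * Real.sqrt 2 + 2 / Real.sqrt ρ) ≤ 6 + ρ + 2 * (1 / ρ) := by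
      have h11 : 2 / Real.sqrt ρ = 2 * (1 / Real.sqrt ρ) := by ring
      rw [h11]
      linarith
    rw [h4]
    have h12 : (Real.sqrt ρ + 2 * Real.sqrt 2 + 2 / Real.sqrt ρ) * (1 / ρ) ≤
        (6 + ρ + 2 * (1 / ρ)) * (1 / ρ) := mul_le_mul_of_nonneg_right h10 h9.le
    have h13 : (6 + ρ + 2 * (1 / ρ)) * (1 / ρ) = 6 * (1 / ρ) + 1 + 2 * (1 / ρ) ^ 2 := by
      field_simp
    have h14 : (1 / ρ) ^ 2 ≤ (2 * A) ^ 2 := pow_le_pow_left₀ h9.le h8 2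
    have h15 : A ^ 2 ≤ (A + Δ) ^ 3 := by
      have h16 : A ^ 2 ≤ (A + Δ) ^ 2 := by nlinarith
      have h17 : 1 ≤ A + Δ := by linarith
      have h18 : 0 ≤ (A + Δ) ^ 2 := sq_nonneg _
      nlinarith
    have h16 : A ≤ A ^ 2 := by nlinarith
    rw [h13] at h12
    nlinarith
  have h4 : 0 ≤ Real.exp (-(Real.sqrt Δ * D / A)) := (Real.exp_pos _).le
  calc |Real.sqrt 2 * Δ ^ (-(1 / 4) : ℝ)| * |∫ t in Ioi (1 : ℝ), R t|
      ≤ (3 / 2) * ((16 * Real.exp (-(π * (ρ * D))) *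
      ((Real.sqrt ρ + Real.sqrt 2) * (1 + Real.sqrt 2 / Real.sqrt ρ))) * (1 / ρ)) :=
        mul_le_mul h1 hI (abs_nonneg _) (by norm_num)
    _ = 24 * Real.exp (-(π * (ρ * D))) * (((Real.sqrt ρ + Real.sqrt 2) *
        (1 + Real.sqrt 2 / Real.sqrt ρ)) * (1 / ρ)) := by ring
    _ ≤ 24 * Real.exp (-(Real.sqrt Δ * D / A)) * (21 * (A + Δ) ^ 3) := by gcongr
    _ = _ := by ring

end Pool.Agent.H25.CN
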