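import Pool.Agent.H31.CN.T2

/-! # BSU: sums over the middle coefficient with a periodic weight -/

set_option autoImplicit false

open MeasureTheory Set Filter
open scoped Real Matrix MatrixGroups

namespace Pool.Agent.H25.CN

open Pool.Agent.H31.CN

/-- sums over blocks -/
theorem sum_blocks (F : ℕ → ℝ) (g D : ℕ) :
    ∑ B ∈ Finset.range (g * D), F B =
      ∑ r ∈ Finset.range g, ∑ k ∈ Finset.range D, F (r + g * k) := by
  induction D with
  | zero => simp
  | succ D ih =>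
    rw [Nat.mul_succ, Finset.sum_range_add, ih, ← Finset.sum_add_distrib]
    refine Finset.sum_congr rfl fun r _ => ?_
    rw [Finset.sum_range_succ]
    congr 2
    ring

theorem per_mul (f : ℤ → ℝ) (a : ℤ) (h : ∀ B, f (B + a) = f B) (n : ℤ) (B : ℤ) :
    f (B + a * n) = f B := by
  have hnat : ∀ (k : ℕ) (B : ℤ), f (B + a * k) = f B := by
    intro k
    induction k with
    | zero => intro B; simp
    | succ k ih =>
      intro B
      have h1 : B + a * ((k + 1 : ℕ) : ℤ) = (B + a * k) + a := by push_cast; ring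
      rw [h1, h, ih]
  rcases Int.eq_nat_or_neg n with ⟨k, rfl | rfl⟩
  · exact hnat k B
  · have h1 := hnat k (B + a * -(k : ℤ))
    have h2 : B + a * -(k : ℤ) + a * k = B := by ring
    rw [h2] at h1
    exact h1.symm

theorem per_gcd (f : ℤ → ℝ) (a b : ℕ) (ha : ∀ B, f (B + a) = f B) (hb : ∀ B, f (B + b) = f B)
    (B : ℤ) (k : ℕ) : f (B + (Nat.gcd a b : ℕ) * k) = f B := by
  have h1 : ∀ B : ℤ, f (B + (Nat.gcd a b : ℕ)) = f B := by
    intro B
    rw [Nat.gcd_eq_gcd_ab, ← add_assoc, per_mul f b hb, per_mul f a ha]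
  exact per_mul f _ h1 k B

theorem pf_BSU (hBAV : T_BAV) : T_BSU := by
  obtain ⟨C, hC, hB⟩ := hBAV
  refine ⟨2 * C, by positivity, ?_⟩
  intro A h Δ M f hA hh hΔ hf1 hf2 hfM
  have hM : 0 ≤ M := (abs_nonneg _).trans (hfM 0)
  have hAR : (1 : ℝ) ≤ A := by exact_mod_cast hA
  have hhR : (1 : ℝ) ≤ h := by exact_mod_cast hh
  obtain ⟨g, hg⟩ : ∃ g : ℕ, g = Nat.gcd (2 * A) h := ⟨_, rfl⟩
  have hg0 : 0 < g := by
    rw [hg]
    exact Nat.gcd_pos_of_pos_right _ (by omega)
  obtain ⟨D, hD⟩ : ∃ D : ℕ, 2 * A = g * D := by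
    rw [hg]
    exact Nat.gcd_dvd_left _ _
  have hD0 : 1 ≤ D := by
    rcases Nat.eq_zero_or_pos D with h0 | h0
    · rw [h0, mul_zero] at hD
      omega
    · exact h0
  have hgh : (g : ℝ) ≤ h := by
    have : g ≤ h := by
      rw [hg]
      exact Nat.gcd_le_right _ (by omega)
    exact_mod_cast this
  have hgR : (1 : ℝ) ≤ g := by exact_mod_cast hg0
  have hDR : (1 : ℝ) ≤ D := by exact_mod_cast hD0
  have hgD : 2 * (A : ℝ) = g * D := by exact_mod_cast hD
  have hper : ∀ (B : ℤ) (k : ℕ), f (B + (g : ℕ) * k) = f B := by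
    intro B k
    rw [hg]
    refine per_gcd f (2 * A) h ?_ hf2 B k
    intro B
    have := hf1 B
    push_cast
    exact this
  rw [hD, sum_blocks, sum_blocks (fun B => f B), Finset.mul_sum, ← Finset.sum_sub_distrib]
  have hterm : ∀ r ∈ Finset.range g,
      |∑ k ∈ Finset.range D, f ((r + g * k : ℕ) : ℤ) * zf A ((r + g * k : ℕ) : ℝ) Δ -
        ct A Δ * ∑ k ∈ Finset.range D, f ((r + g * k : ℕ) : ℤ)| ≤
      M * (D * (C * ((A : ℝ) + Δ) ^ 3 * Real.exp (-(Real.sqrt Δ / h)))) := by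
    intro r _
    have h1 : ∀ k : ℕ, f ((r + g * k : ℕ) : ℤ) = f r := by
      intro k
      push_cast
      exact hper r k
    have h2 : ∀ k : ℕ, ((r + g * k : ℕ) : ℝ) =
        2 * (A : ℝ) * ((r : ℝ) / (2 * A) + (k : ℝ) / D) := by
      intro k
      have hA' : (A : ℝ) ≠ 0 := by positivity
      have hD' : (D : ℝ) ≠ 0 := by positivity
      have h3 : 2 * (A : ℝ) * ((r : ℝ) / (2 * A) + (k : ℝ) / D) =
          r + (2 * A) * (k / D) := by
        field_simp
      rw [h3, hgD]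
      push_cast
      field_simp
    simp only [h1, h2]
    rw [← Finset.mul_sum, Finset.sum_const, Finset.card_range, nsmul_eq_mul]
    have h4 := hB A Δ ((r : ℝ) / (2 * A)) D hAR hΔ hD0
    set S := ∑ k ∈ Finset.range D, zf (A : ℝ) (2 * A * ((r : ℝ) / (2 * A) + (k : ℝ) / D)) Δ with hS
    have h5 : f r * S - ct A Δ * (D * f r) = f r * (D * (1 / D * S - ct A Δ)) := by
      have hD' : (D : ℝ) ≠ 0 := by positivity
      field_simp
    rw [h5, abs_mul, abs_mul, abs_of_nonneg (by positivity : (0 : ℝ) ≤ D)]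
    have h6 : Real.exp (-(Real.sqrt Δ * D / A)) ≤ Real.exp (-(Real.sqrt Δ / h)) := by
      refine Real.exp_le_exp.2 (neg_le_neg ?_)
      rw [div_le_div_iff₀ (by positivity) (by positivity)]
      have h7 : (A : ℝ) ≤ D * h := by nlinarith
      have h8 := Real.sqrt_nonneg Δ
      nlinarith
    have h9 : |1 / (D : ℝ) * S - ct A Δ| ≤ C * ((A : ℝ) + Δ) ^ 3 * Real.exp (-(Real.sqrt Δ / h)) :=
      h4.trans (mul_le_mul_of_nonneg_left h6 (by positivity))
    have h10 := hfM r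
    gcongr
  refine (Finset.abs_sum_le_sum_abs _ _).trans ((Finset.sum_le_sum hterm).trans ?_)
  rw [Finset.sum_const, Finset.card_range, nsmul_eq_mul]
  have h1 : (g : ℝ) * (M * (D * (C * ((A : ℝ) + Δ) ^ 3 * Real.exp (-(Real.sqrt Δ / h))))) =
      2 * C * M * (A * ((A : ℝ) + Δ) ^ 3) * Real.exp (-(Real.sqrt Δ / h)) := by
    linear_combination (-(M * C * ((A : ℝ) + Δ) ^ 3 * Real.exp (-(Real.sqrt Δ / h)))) * hgD
  rw [h1]
  have h2 : (A : ℝ) * ((A : ℝ) + Δ) ^ 3 ≤ ((A : ℝ) + Δ) ^ 4 := by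
    have h3 : 0 ≤ ((A : ℝ) + Δ) ^ 3 := by positivity
    nlinarith
  gcongr

end Pool.Agent.H25.CN
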