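import Pool.Agent.H31.CN.T2

/-! # CTI: the constant term -/

set_option autoImplicit false

open MeasureTheory Set Filter
open scoped Real Matrix MatrixGroups Topology Interval

namespace Pool.Agent.H25.CN

open Pool.Agent.H31.CN

/-- `th1 - 1` -/
noncomputable def Ps (u : ℝ) : ℝ := th1 u - 1

section
variable (hTH1 : T_TH1)
include hTH1

theorem Ps_cont : ContinuousOn Ps (Ioi 0) := hTH1.2.1.sub continuousOn_const

theorem Ps_bd (x u : ℝ) (hx : 0 < x) (hu : x ≤ u) :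
    ‖Ps u‖ ≤ 4 * (1 + 1 / Real.sqrt x) * Real.exp (-(π * u)) := by
  have hu0 : 0 < u := lt_of_lt_of_le hx hu
  obtain ⟨h1, h2⟩ := hTH1.2.2.2 u hu0
  rw [Real.norm_eq_abs]
  unfold Ps
  rw [abs_of_nonneg h1]
  refine h2.trans ?_
  have h3 : 1 / Real.sqrt u ≤ 1 / Real.sqrt x :=
    one_div_le_one_div_of_le (Real.sqrt_pos.2 hx) (Real.sqrt_le_sqrt hu)
  gcongr

theorem Ps_int (φ : ℝ → ℝ) (hφ : ContinuousOn φ (Ioi 0)) (x B : ℝ) (hx : 0 < x)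
    (hB : ∀ u, x ≤ u → ‖φ u‖ ≤ B) : IntegrableOn (fun u => Ps u * φ u) (Ioi x) := by
  have hsub : Ioi x ⊆ Ioi 0 := Ioi_subset_Ioi hx.le
  have h1 : IntegrableOn (fun u : ℝ => 4 * (1 + 1 / Real.sqrt x) * B * Real.exp (-π * u))
      (Ioi x) := (exp_neg_integrableOn_Ioi x Real.pi_pos).const_mul _
  refine Integrable.mono' h1 ?_ ?_
  · exact ((Ps_cont hTH1).mul hφ |>.mono hsub).aestronglyMeasurable measurableSet_Ioi
  · refine (ae_restrict_mem measurableSet_Ioi).mono fun u hu => ?_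
    have hu' : x ≤ u := le_of_lt hu
    rw [norm_mul]
    have h2 := Ps_bd hTH1 x u hx hu'
    have h3 := hB u hu'
    calc ‖Ps u‖ * ‖φ u‖ ≤ (4 * (1 + 1 / Real.sqrt x) * Real.exp (-(π * u))) * B := by
          gcongr
      _ = _ := by
          rw [neg_mul]
          ring

theorem rpow_cont : ContinuousOn (fun u : ℝ => u ^ (-(1 / 2) : ℝ)) (Ioi 0) := by
  have := hTH1
  intro u hu
  exact (Real.continuousAt_rpow_const u _ (Or.inl (ne_of_gt hu))).continuousWithinAt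

theorem int1 (x : ℝ) (hx : 0 < x) :
    IntegrableOn (fun u => Ps u * u ^ (-(1 / 2) : ℝ)) (Ioi x) := by
  refine Ps_int hTH1 _ (rpow_cont hTH1) x (x ^ (-(1 / 2) : ℝ)) hx fun u hu => ?_
  have hu0 : 0 < u := lt_of_lt_of_le hx hu
  rw [Real.norm_eq_abs, abs_of_pos (Real.rpow_pos_of_pos hu0 _)]
  exact Real.rpow_le_rpow_of_nonpos hx hu (by norm_num)

theorem int2 (x : ℝ) (hx : 0 < x) : IntegrableOn (fun u => Ps u * u⁻¹) (Ioi x) := by
  refine Ps_int hTH1 _ ?_ x x⁻¹ hx fun u hu => ?_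
  · exact continuousOn_inv₀.mono fun u hu => ne_of_gt hu
  · have hu0 : 0 < u := lt_of_lt_of_le hx hu
    rw [Real.norm_eq_abs, abs_of_pos (inv_pos.2 hu0)]
    exact inv_anti₀ hx hu

/-- the first integral from `x` -/
theorem tail (φ : ℝ → ℝ) (hφ : ContinuousOn φ (Ioi 0))
    (hi : ∀ x, 0 < x → IntegrableOn (fun u => Ps u * φ u) (Ioi x)) (x : ℝ) (hx : 0 < x) :
    HasDerivAt (fun y => ∫ u in Ioi y, Ps u * φ u) (-(Ps x * φ x)) x := by
  have hcont : ContinuousOn (fun u => Ps u * φ u) (Ioi 0) := (Ps_cont hTH1).mul hφ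
  have hev : ∀ y, 0 < y → ∫ u in Ioi y, Ps u * φ u =
      (∫ u in Ioi (x / 2), Ps u * φ u) - ∫ u in (x / 2)..y, Ps u * φ u := by
    intro y hy
    have h1 := intervalIntegral.integral_Ioi_sub_Ioi' (hi (x / 2) (by linarith)) (hi y hy)
    linarith
  have h2 : HasDerivAt (fun y => ∫ u in (x / 2)..y, Ps u * φ u) (Ps x * φ x) x := by
    refine intervalIntegral.integral_hasDerivAt_right ?_ ?_ ?_
    · refine ContinuousOn.intervalIntegrable ?_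
      refine hcont.mono fun u hu => ?_
      rw [uIcc_of_le (by linarith)] at hu
      exact lt_of_lt_of_le (by linarith : (0 : ℝ) < x / 2) hu.1
    · exact hcont.stronglyMeasurableAtFilter isOpen_Ioi x hx
    · exact hcont.continuousAt (Ioi_mem_nhds hx)
  have h3 : HasDerivAt (fun y => (∫ u in Ioi (x / 2), Ps u * φ u) -
      ∫ u in (x / 2)..y, Ps u * φ u) (-(Ps x * φ x)) x := by
    have := h2.const_sub (∫ u in Ioi (x / 2), Ps u * φ u)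
    exact this
  refine h3.congr_of_eventuallyEq ?_
  filter_upwards [Ioi_mem_nhds hx] with y hy using hev y hy

/-- the identity -/
theorem main_id (ρ : ℝ) (hρ : 0 < ρ) :
    (∫ u in Ioi ρ⁻¹, Ps u * u ^ (-(1 / 2) : ℝ)) + (∫ u in Ioi ρ, Ps u * u⁻¹) -
      2 * (Real.sqrt ρ)⁻¹ = Real.log (2 * ρ) + c0 := by
  obtain ⟨F, hF⟩ : ∃ F : ℝ → ℝ, F = fun ρ => (∫ u in Ioi ρ⁻¹, Ps u * u ^ (-(1 / 2) : ℝ)) +
    (∫ u in Ioi ρ, Ps u * u⁻¹) - 2 * (Real.sqrt ρ)⁻¹ - Real.log ρ := ⟨_, rfl⟩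
  have hd : ∀ ρ, 0 < ρ → HasDerivAt F 0 ρ := by
    intro ρ hρ
    have hs : 0 < Real.sqrt ρ := Real.sqrt_pos.2 hρ
    have h1 := (tail hTH1 _ (rpow_cont hTH1) (int1 hTH1) ρ⁻¹ (inv_pos.2 hρ)).comp ρ
      (hasDerivAt_inv hρ.ne')
    have h2 := tail hTH1 _ (continuousOn_inv₀.mono fun u (hu : 0 < u) => ne_of_gt hu)
      (int2 hTH1) ρ hρ
    have h3 : HasDerivAt (fun ρ : ℝ => 2 * (Real.sqrt ρ)⁻¹)
        (2 * (-(1 / (2 * Real.sqrt ρ)) / (Real.sqrt ρ) ^ 2)) ρ :=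
      ((Real.hasDerivAt_sqrt hρ.ne').fun_inv hs.ne').const_mul 2
    have h4 := Real.hasDerivAt_log hρ.ne'
    have h5 := ((h1.add h2).sub h3).sub h4
    rw [hF]
    refine h5.congr_deriv ?_
    have h6 : (ρ⁻¹ : ℝ) ^ (-(1 / 2) : ℝ) = Real.sqrt ρ := by
      rw [Real.inv_rpow hρ.le, ← Real.rpow_neg hρ.le, Real.sqrt_eq_rpow]
      norm_num
    have h7 : Ps ρ⁻¹ = Real.sqrt ρ * (Ps ρ + 1) - 1 := by
      unfold Ps
      rw [(hTH1.1 ρ hρ).2]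
      ring
    rw [h6, h7]
    have h8 : Real.sqrt ρ * Real.sqrt ρ = ρ := Real.mul_self_sqrt hρ.le
    obtain ⟨q, hq⟩ : ∃ q : ℝ, q = Real.sqrt ρ := ⟨_, rfl⟩
    rw [← hq] at h8 hs ⊢
    rw [← h8]
    field_simp
    ring
  have hconst : ∀ x y : ℝ, F (Real.exp x) = F (Real.exp y) := by
    refine is_const_of_deriv_eq_zero (f := fun x => F (Real.exp x)) ?_ ?_
    · intro x
      exact ((hd _ (Real.exp_pos x)).comp x (Real.hasDerivAt_exp x)).differentiableAt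
    · intro x
      have h1 := ((hd _ (Real.exp_pos x)).comp x (Real.hasDerivAt_exp x)).deriv
      rw [zero_mul] at h1
      exact h1
  have h1 := hconst (Real.log ρ) (Real.log (1 / 2))
  rw [Real.exp_log hρ, Real.exp_log (by norm_num)] at h1
  have h2 : F (1 / 2) = c0 + Real.log 2 := by
    rw [hF]
    simp only
    unfold c0 Ps
    have h3 : ((1 / 2 : ℝ))⁻¹ = 2 := by norm_num
    have h4 : (Real.sqrt (1 / 2))⁻¹ = Real.sqrt 2 := by
      rw [← Real.sqrt_inv]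
      norm_num
    have h5 : Real.log (1 / 2) = -Real.log 2 := by
      rw [one_div, Real.log_inv]
    rw [h3, h4, h5]
    ring
  rw [h2, hF] at h1
  simp only at h1
  rw [Real.log_mul two_ne_zero hρ.ne']
  linarith

end

theorem pf_CTI (hTH1 : T_TH1) : T_CTI := by
  intro A Δ hA hΔ
  have hsΔ : 0 < Real.sqrt Δ := Real.sqrt_pos.2 hΔ
  obtain ⟨ρ, hρ⟩ : ∃ ρ : ℝ, ρ = Real.sqrt Δ / (2 * A) := ⟨_, rfl⟩
  have hρ0 : 0 < ρ := by
    rw [hρ]
    positivity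
  have hsρ : 0 < Real.sqrt ρ := Real.sqrt_pos.2 hρ0
  have hcongr : ∀ t ∈ Ioi (1 : ℝ), (th1 (2 * t * A / Real.sqrt Δ) +
      Real.sqrt (Real.sqrt Δ / (2 * t * A)) * (th1 (t * Real.sqrt Δ / (2 * A)) - 1) - 1) *
        t ^ (-(1 / 2) : ℝ) = (Real.sqrt ρ)⁻¹ * (Ps (ρ⁻¹ * t) * (ρ⁻¹ * t) ^ (-(1 / 2) : ℝ)) +
          (Real.sqrt ρ * ρ) * (Ps (ρ * t) * (ρ * t)⁻¹) := by
    intro t ht
    have ht0 : (0 : ℝ) < t := lt_trans one_pos ht
    have hst : 0 < Real.sqrt t := Real.sqrt_pos.2 ht0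
    have e1 : 2 * t * A / Real.sqrt Δ = ρ⁻¹ * t := by
      rw [hρ]
      field_simp
    have e2 : t * Real.sqrt Δ / (2 * A) = ρ * t := by
      rw [hρ]
      field_simp
    have e3 : Real.sqrt Δ / (2 * t * A) = ρ / t := by
      rw [hρ]
      field_simp
    have e4 : t ^ (-(1 / 2) : ℝ) = (Real.sqrt t)⁻¹ := by
      rw [Real.rpow_neg ht0.le, Real.sqrt_eq_rpow]
    have e5 : (ρ⁻¹ * t) ^ (-(1 / 2) : ℝ) = Real.sqrt ρ * (Real.sqrt t)⁻¹ := by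
      rw [Real.mul_rpow (inv_pos.2 hρ0).le ht0.le, e4, Real.inv_rpow hρ0.le,
        ← Real.rpow_neg hρ0.le, Real.sqrt_eq_rpow ρ]
      norm_num
    have e6 : Real.sqrt (ρ / t) = Real.sqrt ρ / Real.sqrt t := Real.sqrt_div hρ0.le t
    rw [e1, e2, e3, e4, e5, e6]
    unfold Ps
    have e7 : Real.sqrt t * Real.sqrt t = t := Real.mul_self_sqrt ht0.le
    obtain ⟨q, hq⟩ : ∃ q : ℝ, q = Real.sqrt t := ⟨_, rfl⟩
    rw [← hq] at e7 hst ⊢
    rw [← e7]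
    field_simp
    ring
  have hi1 : IntegrableOn (fun t : ℝ => Ps (ρ⁻¹ * t) * (ρ⁻¹ * t) ^ (-(1 / 2) : ℝ)) (Ioi 1) := by
    have h1 := int1 hTH1 (ρ⁻¹ * 1) (by positivity)
    exact (integrableOn_Ioi_comp_mul_left_iff (fun u => Ps u * u ^ (-(1 / 2) : ℝ)) 1
      (inv_pos.2 hρ0)).2 h1
  have hi2 : IntegrableOn (fun t : ℝ => Ps (ρ * t) * (ρ * t)⁻¹) (Ioi 1) := by
    have h1 := int2 hTH1 (ρ * 1) (by positivity)
    exact (integrableOn_Ioi_comp_mul_left_iff (fun u => Ps u * u⁻¹) 1 hρ0).2 h1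
  have hi : IntegrableOn (fun t : ℝ => (Real.sqrt ρ)⁻¹ *
      (Ps (ρ⁻¹ * t) * (ρ⁻¹ * t) ^ (-(1 / 2) : ℝ)) +
          (Real.sqrt ρ * ρ) * (Ps (ρ * t) * (ρ * t)⁻¹)) (Ioi 1) :=
    (hi1.const_mul _).add (hi2.const_mul _)
  refine ⟨hi.congr_fun (fun t ht => (hcongr t ht).symm) measurableSet_Ioi, ?_⟩
  rw [setIntegral_congr_fun measurableSet_Ioi hcongr,
    integral_add (hi1.const_mul _) (hi2.const_mul _), integral_const_mul, integral_const_mul]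
  have h1 := integral_comp_mul_left_Ioi (fun u => Ps u * u ^ (-(1 / 2) : ℝ)) 1 (inv_pos.2 hρ0)
  have h2 := integral_comp_mul_left_Ioi (fun u => Ps u * u⁻¹) 1 hρ0
  rw [mul_one, smul_eq_mul, inv_inv] at h1
  rw [mul_one, smul_eq_mul] at h2
  rw [h1, h2]
  have h3 := main_id hTH1 ρ hρ0
  have h4 : Real.sqrt 2 * Δ ^ (-(1 / 4) : ℝ) = (Real.sqrt A)⁻¹ * (Real.sqrt ρ)⁻¹ := by
    have e1 : Δ ^ (-(1 / 4) : ℝ) = (Real.sqrt (Real.sqrt Δ))⁻¹ := by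
      rw [Real.rpow_neg hΔ.le, Real.sqrt_eq_rpow, Real.sqrt_eq_rpow, ← Real.rpow_mul hΔ.le]
      norm_num
    have e2 : Real.sqrt (Real.sqrt Δ) = Real.sqrt 2 * Real.sqrt A * Real.sqrt ρ := by
      have e3 : Real.sqrt Δ = 2 * A * ρ := by
        rw [hρ]
        field_simp
      rw [e3, Real.sqrt_mul (by positivity), Real.sqrt_mul (by norm_num)]
    have e4 : 0 < Real.sqrt 2 := Real.sqrt_pos.2 two_pos
    have e5 : 0 < Real.sqrt A := Real.sqrt_pos.2 hA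
    rw [e1, e2]
    field_simp
  rw [h4]
  unfold ct
  have h5 : Real.sqrt Δ / A = 2 * ρ := by
    rw [hρ]
    field_simp
  rw [h5, ← h3]
  have e5 : 0 < Real.sqrt A := Real.sqrt_pos.2 hA
  have e7 : Real.sqrt ρ * Real.sqrt ρ = ρ := Real.mul_self_sqrt hρ0.le
  obtain ⟨q, hq⟩ : ∃ q : ℝ, q = Real.sqrt ρ := ⟨_, rfl⟩
  generalize (∫ u in Ioi ρ⁻¹, Ps u * u ^ (-(1 / 2) : ℝ)) = J1
  generalize (∫ u in Ioi ρ, Ps u * u⁻¹) = J2
  rw [← hq] at e7 hsρ ⊢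
  rw [← e7]
  field_simp

end Pool.Agent.H25.CN
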